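import Mathlib
import Pool.Agent.V11214.Remet

set_option autoImplicit false

open Set Topology Metric

namespace Pool.Agent.Results.MP_afcd7b_gt.TriodSpans

/-- `A` is an arc one of whose endpoints is `v`. -/
def IsArcFrom {X : Type*} [TopologicalSpace X] (v : X) (A : Set X) : Prop :=
  ∃ h : unitInterval ≃ₜ A, (h 0 : X) = v

/-- `X` is a simple triod: the union of three arcs with a common endpoint which are otherwise
pairwise disjoint. -/
def IsSimpleTriod (X : Type*) [TopologicalSpace X] : Prop :=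
  ∃ (v : X) (A B C : Set X), IsArcFrom v A ∧ IsArcFrom v B ∧ IsArcFrom v C ∧
    A ∩ B = {v} ∧ A ∩ C = {v} ∧ B ∩ C = {v} ∧ A ∪ B ∪ C = univ

/-- The surjective span of a metric space. -/
noncomputable def surjSpan (X : Type*) [MetricSpace X] : ℝ :=
  sSup {a : ℝ | 0 ≤ a ∧ ∃ C : Set (X × X), IsConnected C ∧
    Prod.fst '' C = univ ∧ Prod.snd '' C = univ ∧ ∀ p ∈ C, a ≤ dist p.1 p.2}

/-- The surjective semi-span of a metric space. -/
noncomputable def surjSemispan (X : Type*) [MetricSpace X] : ℝ :=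
  sSup {a : ℝ | 0 ≤ a ∧ ∃ C : Set (X × X), IsConnected C ∧
    (Prod.fst '' C = univ ∨ Prod.snd '' C = univ) ∧ ∀ p ∈ C, a ≤ dist p.1 p.2}

theorem core {X : Type} [m : MetricSpace X] (C : Set (X × X))
    (hC : IsCompact C) (hdis : Disjoint C (Prod.swap '' C)) (e : X) (he : e ∉ Prod.snd '' C)
    (D : X → X → ℝ) (hgap : ∀ δ > 0, ∃ η > 0, ∀ x y, 1 - η < D x y →
      ∃ q ∈ C ∪ Prod.swap '' C, dist x q.1 < δ ∧ dist y q.2 < δ) :
    ∃ η > 0, ∀ Z : Set (X × X), IsConnected Z → Prod.fst '' Z = univ → Prod.snd '' Z = univ →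
      ¬ (∀ p ∈ Z, 1 - η < D p.1 p.2) := by
  have hCs : IsCompact (Prod.swap '' C) := hC.image continuous_swap
  obtain ⟨δ, hδ, hdis'⟩ := hdis.exists_thickenings hC hCs.isClosed
  have hsndC : IsClosed (Prod.snd '' C) := (hC.image continuous_snd).isClosed
  obtain ⟨δ2, hδ2, hball⟩ := Metric.isOpen_iff.mp hsndC.isOpen_compl e he
  obtain ⟨η, hη, hη2⟩ := hgap (min δ δ2) (lt_min hδ hδ2)
  refine ⟨η, hη, ?_⟩
  intro Z hZ h1 h2 hd
  have hnear : ∀ p ∈ Z, ∃ q ∈ C ∪ Prod.swap '' C,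
      dist p.1 q.1 < min δ δ2 ∧ dist p.2 q.2 < min δ δ2 := by
    intro p hp
    exact hη2 p.1 p.2 (hd p hp)
  have hcover : Z ⊆ thickening δ C ∪ thickening δ (Prod.swap '' C) := by
    intro p hp
    obtain ⟨q, hq, hq1, hq2⟩ := hnear p hp
    have hdd : dist p q < δ := by
      rw [Prod.dist_eq]
      exact max_lt (hq1.trans_le (min_le_left _ _)) (hq2.trans_le (min_le_left _ _))
    rcases hq with hq | hq
    · left; exact mem_thickening_iff.2 ⟨q, hq, hdd⟩
    · right; exact mem_thickening_iff.2 ⟨q, hq, hdd⟩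
  rcases hZ.isPreconnected.subset_or_subset isOpen_thickening isOpen_thickening hdis' hcover
    with h | h
  · obtain ⟨p, hp, hpe⟩ : e ∈ Prod.snd '' Z := by rw [h2]; trivial
    obtain ⟨q, hq, hq1, hq2⟩ := hnear p hp
    have hqC : q ∈ C := by
      rcases hq with hq | hq
      · exact hq
      · exfalso
        have hdd : dist p q < δ := by
          rw [Prod.dist_eq]
          exact max_lt (hq1.trans_le (min_le_left _ _)) (hq2.trans_le (min_le_left _ _))
        exact Set.disjoint_left.1 hdis' (h hp) (mem_thickening_iff.2 ⟨q, hq, hdd⟩)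
    have : q.2 ∈ ball e δ2 := by
      rw [mem_ball', ← hpe]
      exact hq2.trans_le (min_le_right _ _)
    exact hball this ⟨q, hqC, rfl⟩
  · obtain ⟨p, hp, hpe⟩ : e ∈ Prod.fst '' Z := by rw [h1]; trivial
    obtain ⟨q, hq, hq1, hq2⟩ := hnear p hp
    have hqC : q ∈ Prod.swap '' C := by
      rcases hq with hq | hq
      · exfalso
        have hdd : dist p q < δ := by
          rw [Prod.dist_eq]
          exact max_lt (hq1.trans_le (min_le_left _ _)) (hq2.trans_le (min_le_left _ _))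
        exact Set.disjoint_left.1 hdis' (mem_thickening_iff.2 ⟨q, hq, hdd⟩) (h hp)
      · exact hq
    obtain ⟨r, hr, rfl⟩ := hqC
    have : r.2 ∈ ball e δ2 := by
      rw [mem_ball', ← hpe]
      exact hq1.trans_le (min_le_right _ _)
    exact hball this ⟨r, hr, rfl⟩

theorem exists_metric {X : Type} [m : MetricSpace X] [CompactSpace X] (C : Set (X × X))
    (hC : IsCompact C) (hconn : IsConnected C) (hfst : Prod.fst '' C = univ)
    (hdis : Disjoint C (Prod.swap '' C)) (e : X) (he : e ∉ Prod.snd '' C) :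
    ∃ m' : MetricSpace X, m'.toPseudoMetricSpace.toUniformSpace.toTopologicalSpace =
      m.toPseudoMetricSpace.toUniformSpace.toTopologicalSpace ∧
      @surjSpan X m' < @surjSemispan X m' := by
  have hCs : IsCompact (Prod.swap '' C) := hC.image continuous_swap
  set M : Set (X × X) := C ∪ Prod.swap '' C with hM
  have hMc : IsCompact M := hC.union hCs
  have hcore := core C hC hdis e he
  have hcg := fun (τ' : TopologicalSpace X) (h : τ' = m.toPseudoMetricSpace.toUniformSpace.toTopologicalSpace) Z => Pool.Agent.V11214.Remet.isConnected_prod_congr (X := X)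
    m.toPseudoMetricSpace.toUniformSpace.toTopologicalSpace τ' h Z
  obtain ⟨m', htop, hle, hone, hgap⟩ := Pool.Agent.V11214.Remet.exists_remetric M hMc.isClosed
    (hconn.nonempty.mono subset_union_left)
    (by
      rintro p (hp | ⟨q, hq, rfl⟩)
      · exact Or.inr (mem_image_of_mem _ hp)
      · left; rwa [Prod.swap_swap])
    (by
      rintro x (hx | ⟨q, hq, hq2⟩)
      · exact Set.disjoint_left.mp hdis hx ⟨(x, x), hx, rfl⟩
      · have : q = (x, x) := by
          have := congrArg Prod.swap hq2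
          rwa [Prod.swap_swap, Prod.swap_prod_mk] at this
        rw [this] at hq
        exact Set.disjoint_left.mp hdis hq ⟨(x, x), hq, rfl⟩)
  obtain ⟨η, hη, hno⟩ := hcore (fun x y => m'.dist x y) hgap
  have hcongr := fun Z => hcg m'.toPseudoMetricSpace.toUniformSpace.toTopologicalSpace htop Z
  refine ⟨m', htop, ?_⟩
  have hη' : 0 < min η 1 := lt_min hη one_pos
  have hL : @surjSpan X m' ≤ 1 - min η 1 := by
    apply Real.sSup_le
    · rintro a ⟨_, Z, hZ, h1, h2, hd⟩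
      by_contra hcon
      push Not at hcon
      apply hno Z ((hcongr Z).1 hZ) h1 h2
      intro p hp
      have h3 : a ≤ m'.dist p.1 p.2 := hd p hp
      have h4 : min η 1 ≤ η := min_le_left _ _
      show 1 - η < m'.dist p.1 p.2
      linarith
    · have : min η 1 ≤ 1 := min_le_right _ _
      linarith
  have hR : (1 : ℝ) ≤ @surjSemispan X m' := by
    apply le_csSup
    · refine ⟨1, ?_⟩
      rintro a ⟨_, Z, hZ, _, hd⟩
      obtain ⟨p, hp⟩ := ((hcongr Z).1 hZ).1
      exact (hd p hp).trans (hle _ _)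
    · exact ⟨zero_le_one, C, (hcongr C).2 hconn, Or.inl hfst,
        fun p hp => (hone p (Or.inl hp)).ge⟩
  linarith

/-- the model triod -/
abbrev Tri : Type := {p : ℝ × ℝ // (p.2 = 0 ∧ -1 ≤ p.1 ∧ p.1 ≤ 1) ∨ (p.1 = 0 ∧ 0 ≤ p.2 ∧ p.2 ≤ 1)}

/-- clamping to the unit interval -/
noncomputable def cl (t : ℝ) : ℝ := max 0 (min 1 t)

theorem cl_nonneg (t : ℝ) : 0 ≤ cl t := le_max_left _ _
theorem cl_le (t : ℝ) : cl t ≤ 1 := max_le zero_le_one (min_le_left _ _)
theorem cl_eq {t : ℝ} (h0 : 0 ≤ t) (h1 : t ≤ 1) : cl t = t := by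
  unfold cl; rw [min_eq_right h1, max_eq_right h0]
theorem cl_cont : Continuous cl := by unfold cl; fun_prop

noncomputable def leg1 (t : ℝ) : Tri :=
  ⟨(cl t, 0), Or.inl ⟨rfl, by linarith [cl_nonneg t], cl_le t⟩⟩
noncomputable def leg2 (t : ℝ) : Tri :=
  ⟨(-cl t, 0), Or.inl ⟨rfl, by linarith [cl_le t], by linarith [cl_nonneg t]⟩⟩
noncomputable def leg3 (t : ℝ) : Tri :=
  ⟨(0, cl t), Or.inr ⟨rfl, cl_nonneg t, cl_le t⟩⟩

theorem leg1_cont : Continuous leg1 := by
  apply Continuous.subtype_mk; have := cl_cont; fun_prop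
theorem leg2_cont : Continuous leg2 := by
  apply Continuous.subtype_mk; have := cl_cont; fun_prop
theorem leg3_cont : Continuous leg3 := by
  apply Continuous.subtype_mk; have := cl_cont; fun_prop

theorem leg1_zero : (leg1 0).1 = (0, 0) := by simp [leg1, cl]
theorem leg2_zero : (leg2 0).1 = (0, 0) := by simp [leg2, cl]
theorem leg3_zero : (leg3 0).1 = (0, 0) := by simp [leg3, cl]

theorem leg1_val {t : ℝ} (h0 : 0 ≤ t) (h1 : t ≤ 1) : (leg1 t).1 = (t, 0) := by
  simp [leg1, cl_eq h0 h1]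
theorem leg2_val {t : ℝ} (h0 : 0 ≤ t) (h1 : t ≤ 1) : (leg2 t).1 = (-t, 0) := by
  simp [leg2, cl_eq h0 h1]
theorem leg3_val {t : ℝ} (h0 : 0 ≤ t) (h1 : t ≤ 1) : (leg3 t).1 = (0, t) := by
  simp [leg3, cl_eq h0 h1]

instance : CompactSpace Tri := by
  apply isCompact_iff_compactSpace.mp
  have h : {p : ℝ × ℝ | (p.2 = 0 ∧ -1 ≤ p.1 ∧ p.1 ≤ 1) ∨ (p.1 = 0 ∧ 0 ≤ p.2 ∧ p.2 ≤ 1)} =
      (Icc (-1) 1 ×ˢ {0}) ∪ ({0} ×ˢ Icc 0 1) := by
    ext ⟨x, y⟩
    simp only [mem_ofPred_eq, mem_union, mem_prod, mem_Icc, mem_singleton_iff]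
    tauto
  show IsCompact {p : ℝ × ℝ | (p.2 = 0 ∧ -1 ≤ p.1 ∧ p.1 ≤ 1) ∨ (p.1 = 0 ∧ 0 ≤ p.2 ∧ p.2 ≤ 1)}
  rw [h]
  exact (isCompact_Icc.prod isCompact_singleton).union (isCompact_singleton.prod isCompact_Icc)

/-- an arc from an injective continuous map of the unit interval -/
theorem arcFrom (f : ℝ → Tri) (hf : Continuous f) (hinj : ∀ s t : ℝ, 0 ≤ s → s ≤ 1 → 0 ≤ t →
    t ≤ 1 → f s = f t → s = t) : IsArcFrom (f 0) (f '' Icc 0 1) := by
  let g : unitInterval → Tri := fun t => f t.1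
  have hg : Continuous g := hf.comp continuous_subtype_val
  have hgi : Function.Injective g := fun s t h =>
    Subtype.ext (hinj s.1 t.1 s.2.1 s.2.2 t.2.1 t.2.2 h)
  have hemb : IsEmbedding g := (hg.isClosedEmbedding hgi).isEmbedding
  have hr : range g = f '' Icc 0 1 := by
    ext x; constructor
    · rintro ⟨t, rfl⟩; exact ⟨t.1, t.2, rfl⟩
    · rintro ⟨t, ht, rfl⟩; exact ⟨⟨t, ht⟩, rfl⟩
  rw [← hr]
  exact ⟨hemb.toHomeomorph, rfl⟩

theorem triod : IsSimpleTriod Tri := by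
  have e12 : leg2 0 = leg1 0 := Subtype.ext (by rw [leg1_zero, leg2_zero])
  have e13 : leg3 0 = leg1 0 := Subtype.ext (by rw [leg1_zero, leg3_zero])
  refine ⟨leg1 0, leg1 '' Icc 0 1, leg2 '' Icc 0 1, leg3 '' Icc 0 1, ?_, ?_, ?_, ?_, ?_, ?_, ?_⟩
  · apply arcFrom _ leg1_cont
    intro s t hs hs' ht ht' h
    have := congrArg (fun x : Tri => x.1.1) h
    simpa [leg1_val hs hs', leg1_val ht ht'] using this
  · rw [← e12]
    apply arcFrom _ leg2_cont
    intro s t hs hs' ht ht' h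
    have := congrArg (fun x : Tri => x.1.1) h
    simpa [leg2_val hs hs', leg2_val ht ht'] using this
  · rw [← e13]
    apply arcFrom _ leg3_cont
    intro s t hs hs' ht ht' h
    have := congrArg (fun x : Tri => x.1.2) h
    simpa [leg3_val hs hs', leg3_val ht ht'] using this
  · ext x
    constructor
    · rintro ⟨⟨s, ⟨hs, hs'⟩, rfl⟩, ⟨t, ⟨ht, ht'⟩, h⟩⟩
      have := congrArg (fun x : Tri => x.1.1) h
      simp only [leg1_val hs hs', leg2_val ht ht'] at this
      have : s = 0 := by linarith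
      rw [this]; rfl
    · rintro rfl
      exact ⟨⟨0, by norm_num, rfl⟩, ⟨0, by norm_num, e12⟩⟩
  · ext x
    constructor
    · rintro ⟨⟨s, ⟨hs, hs'⟩, rfl⟩, ⟨t, ⟨ht, ht'⟩, h⟩⟩
      have := congrArg (fun x : Tri => x.1.1) h
      simp only [leg1_val hs hs', leg3_val ht ht'] at this
      rw [← this]; rfl
    · rintro rfl
      exact ⟨⟨0, by norm_num, rfl⟩, ⟨0, by norm_num, e13⟩⟩
  · ext x
    constructor
    · rintro ⟨⟨s, ⟨hs, hs'⟩, rfl⟩, ⟨t, ⟨ht, ht'⟩, h⟩⟩
      have := congrArg (fun x : Tri => x.1.1) h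
      simp only [leg2_val hs hs', leg3_val ht ht'] at this
      have : s = 0 := by linarith
      rw [this]; exact e12
    · rintro rfl
      exact ⟨⟨0, by norm_num, e12⟩, ⟨0, by norm_num, e13⟩⟩
  · apply eq_univ_of_forall
    rintro ⟨⟨x, y⟩, h | h⟩
    · obtain ⟨h1, h2, h3⟩ := h
      simp only at h1 h2 h3
      subst h1
      rcases le_total 0 x with h0 | h0
      · left; left; exact ⟨x, ⟨h0, h3⟩, Subtype.ext (leg1_val h0 h3)⟩
      · left; right
        refine ⟨-x, ⟨by linarith, by linarith⟩, Subtype.ext ?_⟩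
        rw [leg2_val (by linarith) (by linarith), neg_neg]
    · obtain ⟨h1, h2, h3⟩ := h
      simp only at h1 h2 h3
      subst h1
      right; exact ⟨y, ⟨h2, h3⟩, Subtype.ext (leg3_val h2 h3)⟩

/-- the five pieces of the path -/
noncomputable def P1 (t : ℝ) : Tri × Tri := (leg1 (1 - t / 2), leg1 ((1 - t) / 4))
noncomputable def P2 (t : ℝ) : Tri × Tri := (leg1 ((1 - t) / 2), leg3 t)
noncomputable def P3 (t : ℝ) : Tri × Tri := (leg2 t, leg3 (1 - t))
noncomputable def P4 (t : ℝ) : Tri × Tri := (leg2 (1 - t), leg1 t)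
noncomputable def P5 (t : ℝ) : Tri × Tri := (leg3 t, leg1 1)

def Cset : Set (Tri × Tri) :=
  P1 '' Icc 0 1 ∪ P2 '' Icc 0 1 ∪ P3 '' Icc 0 1 ∪ P4 '' Icc 0 1 ∪ P5 '' Icc 0 1

theorem P1_cont : Continuous P1 := by
  have := leg1_cont; unfold P1; fun_prop
theorem P2_cont : Continuous P2 := by
  have := leg1_cont; have := leg3_cont; unfold P2; fun_prop
theorem P3_cont : Continuous P3 := by
  have := leg2_cont; have := leg3_cont; unfold P3; fun_prop
theorem P4_cont : Continuous P4 := by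
  have := leg1_cont; have := leg2_cont; unfold P4; fun_prop
theorem P5_cont : Continuous P5 := by
  have := leg3_cont; unfold P5; fun_prop

theorem C_compact : IsCompact Cset :=
  ((((isCompact_Icc.image P1_cont).union (isCompact_Icc.image P2_cont)).union
    (isCompact_Icc.image P3_cont)).union (isCompact_Icc.image P4_cont)).union
    (isCompact_Icc.image P5_cont)

theorem I01 : IsConnected (Icc (0:ℝ) 1) := isConnected_Icc zero_le_one

theorem C_connected : IsConnected Cset := by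
  have j1 : P1 1 = P2 0 := by
    simp only [P1, P2, Prod.mk.injEq]
    constructor <;> apply Subtype.ext
    · norm_num
    · norm_num; rw [leg1_zero, leg3_zero]
  have j2 : P2 1 = P3 0 := by
    simp only [P2, P3, Prod.mk.injEq]
    constructor
    · apply Subtype.ext; norm_num; rw [leg1_zero, leg2_zero]
    · norm_num
  have j3 : P3 1 = P4 0 := by
    simp only [P3, P4, Prod.mk.injEq]
    constructor
    · norm_num
    · apply Subtype.ext; norm_num; rw [leg1_zero, leg3_zero]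
  have j4 : P4 1 = P5 0 := by
    simp only [P4, P5, Prod.mk.injEq]
    constructor
    · apply Subtype.ext; norm_num; rw [leg2_zero, leg3_zero]
    · trivial
  have m0 : (0:ℝ) ∈ Icc (0:ℝ) 1 := ⟨le_rfl, zero_le_one⟩
  have m1 : (1:ℝ) ∈ Icc (0:ℝ) 1 := ⟨zero_le_one, le_rfl⟩
  have c1 := I01.image _ P1_cont.continuousOn
  have c2 := I01.image _ P2_cont.continuousOn
  have c3 := I01.image _ P3_cont.continuousOn
  have c4 := I01.image _ P4_cont.continuousOn
  have c5 := I01.image _ P5_cont.continuousOn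
  have c12 : IsConnected (P1 '' Icc 0 1 ∪ P2 '' Icc 0 1) := by
    refine IsConnected.union ?_ c1 c2
    exact ⟨P1 1, ⟨1, m1, rfl⟩, ⟨0, m0, j1.symm⟩⟩
  have c123 : IsConnected (P1 '' Icc 0 1 ∪ P2 '' Icc 0 1 ∪ P3 '' Icc 0 1) := by
    refine IsConnected.union ?_ c12 c3
    exact ⟨P2 1, Or.inr ⟨1, m1, rfl⟩, ⟨0, m0, j2.symm⟩⟩
  have c1234 : IsConnected (P1 '' Icc 0 1 ∪ P2 '' Icc 0 1 ∪ P3 '' Icc 0 1 ∪ P4 '' Icc 0 1) := by
    refine IsConnected.union ?_ c123 c4
    exact ⟨P3 1, Or.inr ⟨1, m1, rfl⟩, ⟨0, m0, j3.symm⟩⟩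
  refine IsConnected.union ?_ c1234 c5
  exact ⟨P4 1, Or.inr ⟨1, m1, rfl⟩, ⟨0, m0, j4.symm⟩⟩

/-- coordinates (x1, x2, y1, y2) of the members -/
theorem C_desc {p : Tri × Tri} (hp : p ∈ Cset) :
    (p.1.1.2 = 0 ∧ p.2.1.2 = 0 ∧ 1/2 ≤ p.1.1.1 ∧ p.2.1.1 = (p.1.1.1 - 1/2) / 2) ∨
    (p.1.1.2 = 0 ∧ p.2.1.1 = 0 ∧ 0 ≤ p.1.1.1 ∧ 0 ≤ p.2.1.2 ∧ p.1.1.1 = (1 - p.2.1.2) / 2) ∨
    (p.1.1.2 = 0 ∧ p.2.1.1 = 0 ∧ p.1.1.1 ≤ 0 ∧ 0 ≤ p.2.1.2 ∧ p.1.1.1 = p.2.1.2 - 1) ∨
    (p.1.1.2 = 0 ∧ p.2.1.2 = 0 ∧ p.1.1.1 ≤ 0 ∧ 0 ≤ p.2.1.1 ∧ p.1.1.1 = p.2.1.1 - 1) ∨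
    (p.1.1.1 = 0 ∧ p.2.1.2 = 0 ∧ p.2.1.1 = 1 ∧ 0 ≤ p.1.1.2) := by
  rcases hp with (((⟨t, ⟨h0, h1⟩, rfl⟩ | ⟨t, ⟨h0, h1⟩, rfl⟩) | ⟨t, ⟨h0, h1⟩, rfl⟩) |
    ⟨t, ⟨h0, h1⟩, rfl⟩) | ⟨t, ⟨h0, h1⟩, rfl⟩
  · left
    simp only [P1]
    rw [leg1_val (by linarith) (by linarith), leg1_val (by linarith) (by linarith)]
    refine ⟨rfl, rfl, ?_, ?_⟩
    · simp only; linarith
    · simp only; ring
  · right; left
    simp only [P2]
    rw [leg1_val (by linarith) (by linarith), leg3_val h0 h1]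
    refine ⟨rfl, rfl, ?_, h0, rfl⟩
    simp only; linarith
  · right; right; left
    simp only [P3]
    rw [leg2_val h0 h1, leg3_val (by linarith) (by linarith)]
    refine ⟨rfl, rfl, ?_, ?_, ?_⟩
    · simp only; linarith
    · simp only; linarith
    · simp only; ring
  · right; right; right; left
    simp only [P4]
    rw [leg2_val (by linarith) (by linarith), leg1_val h0 h1]
    refine ⟨rfl, rfl, ?_, h0, ?_⟩
    · simp only; linarith
    · simp only; ring
  · right; right; right; right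
    simp only [P5]
    rw [leg3_val h0 h1, leg1_val zero_le_one le_rfl]
    exact ⟨rfl, rfl, rfl, h0⟩

theorem C_disj : Disjoint Cset (Prod.swap '' Cset) := by
  rw [Set.disjoint_left]
  rintro p hp ⟨q, hq, rfl⟩
  have h1 := C_desc hp
  have h2 := C_desc hq
  simp only [Prod.fst_swap, Prod.snd_swap] at h1
  rcases h1 with h1 | h1 | h1 | h1 | h1 <;> rcases h2 with h2 | h2 | h2 | h2 | h2 <;>
    (obtain ⟨a1, a2, a3, a4⟩ := h1; obtain ⟨b1, b2, b3, b4⟩ := h2; grind)

theorem C_fst : Prod.fst '' Cset = univ := by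
  apply eq_univ_of_forall
  rintro ⟨⟨x, y⟩, h | h⟩
  · obtain ⟨h1, h2, h3⟩ := h
    simp only at h1 h2 h3
    subst h1
    rcases le_total x 0 with h0 | h0
    · refine ⟨P3 (-x), Or.inl (Or.inl (Or.inr ⟨-x, ⟨by linarith, by linarith⟩, rfl⟩)), ?_⟩
      apply Subtype.ext
      simp only [P3]
      rw [leg2_val (by linarith) (by linarith), neg_neg]
    · rcases le_total x (1/2) with h4 | h4
      · refine ⟨P2 (1 - 2 * x), Or.inl (Or.inl (Or.inl (Or.inr
          ⟨1 - 2 * x, ⟨by linarith, by linarith⟩, rfl⟩))), ?_⟩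
        apply Subtype.ext
        simp only [P2]
        rw [leg1_val (by linarith) (by linarith)]
        ext
        · simp only; ring
        · rfl
      · refine ⟨P1 (2 - 2 * x), Or.inl (Or.inl (Or.inl (Or.inl
          ⟨2 - 2 * x, ⟨by linarith, by linarith⟩, rfl⟩))), ?_⟩
        apply Subtype.ext
        simp only [P1]
        rw [leg1_val (by linarith) (by linarith)]
        ext
        · simp only; ring
        · rfl
  · obtain ⟨h1, h2, h3⟩ := h
    simp only at h1 h2 h3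
    subst h1
    refine ⟨P5 y, Or.inr ⟨y, ⟨h2, h3⟩, rfl⟩, ?_⟩
    apply Subtype.ext
    simp only [P5]
    rw [leg3_val h2 h3]

theorem C_snd : leg2 1 ∉ Prod.snd '' Cset := by
  rintro ⟨p, hp, h⟩
  have h1 := C_desc hp
  rw [h, leg2_val zero_le_one le_rfl] at h1
  simp only at h1
  rcases h1 with h1 | h1 | h1 | h1 | h1
  · linarith [h1.2.2.1, h1.2.2.2]
  · linarith [h1.2.1]
  · linarith [h1.2.1]
  · linarith [h1.2.2.2.1]
  · linarith [h1.2.2.1]

/-- There is a simple triod with a compatible metric whose surjective span is smaller than its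
surjective semi-span. -/
theorem result : ∃ (T : Type) (_ : MetricSpace T), IsSimpleTriod T ∧
    surjSpan T < surjSemispan T := by
  obtain ⟨m', htop, h⟩ := exists_metric Cset C_compact C_connected C_fst C_disj (leg2 1) C_snd
  refine ⟨Tri, m', ?_, h⟩
  rw [htop]
  exact triod

end Pool.Agent.Results.MP_afcd7b_gt.TriodSpans
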